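import Pool.Agent.Helper80.HD.GoalsB

/-!
# Project HD, packet CGA: the Gauss extension of a nonarchimedean absolute value to `L = K(u)`.
-/

set_option autoImplicit false

open MvPolynomial

noncomputable section

namespace Pool.Agent.Helper9.HD

open Pool.Agent.Helper80.HD

section gnlemmas

variable {R : Type} [CommRing R] {σ : Type} (w : AbsoluteValue R ℝ) (Q : MvPolynomial σ R)

theorem gn_nonneg : 0 ≤ gn w Q := Real.iSup_nonneg fun _ => w.nonneg _

theorem coeff_le_gn (s : σ →₀ ℕ) : w (Q.coeff s) ≤ gn w Q := by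
  by_cases hs : s ∈ Q.support
  · exact le_ciSup (f := fun s : Q.support => w (Q.coeff s)) (Set.finite_range _).bddAbove ⟨s, hs⟩
  · rw [MvPolynomial.notMem_support_iff.mp hs, map_zero]
    exact gn_nonneg w Q

theorem gn_le {c : ℝ} (hc : 0 ≤ c) (h : ∀ s, w (Q.coeff s) ≤ c) : gn w Q ≤ c :=
  Real.iSup_le (fun s => h s) hc

theorem gn_zero : gn w (0 : MvPolynomial σ R) = 0 :=
  le_antisymm (gn_le w 0 le_rfl fun s => by simp) (gn_nonneg w 0)

theorem gn_one [Nontrivial R] : gn w (1 : MvPolynomial σ R) = w 1 := by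
  classical
  refine le_antisymm (gn_le w 1 (w.nonneg _) fun s => ?_) ?_
  · rw [MvPolynomial.coeff_one]
    split_ifs
    · exact le_rfl
    · rw [map_zero]; exact w.nonneg _
  · have h := coeff_le_gn w (1 : MvPolynomial σ R) 0
    rwa [MvPolynomial.coeff_zero_one] at h

theorem gn_add_le (hw : IsNonarchimedean w) (P Q : MvPolynomial σ R) :
    gn w (P + Q) ≤ max (gn w P) (gn w Q) := by
  refine gn_le w _ (le_max_of_le_left (gn_nonneg w P)) fun s => ?_
  rw [MvPolynomial.coeff_add]
  exact (hw _ _).trans (max_le_max (coeff_le_gn w P s) (coeff_le_gn w Q s))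

theorem eq_zero_of_gn_eq_zero {Q : MvPolynomial σ R} (h : gn w Q = 0) : Q = 0 := by
  ext s
  rw [MvPolynomial.coeff_zero]
  exact (w.eq_zero).mp (le_antisymm (h ▸ coeff_le_gn w Q s) (w.nonneg _))

end gnlemmas

/-- Extension of a valuation of the polynomial ring to the field `L = K(u)`. -/
theorem exists_ext {K : Type} [Field K] [Algebra K ℂ] {ι : Type} (u : ι → ℂ) (hu : AlgebraicIndependent K u)
    (g : MvPolynomial ι K → ℝ) (hnn : ∀ P, 0 ≤ g P) (hz : ∀ P, g P = 0 ↔ P = 0)
    (hmul : ∀ P Q, g (P * Q) = g P * g Q) (hadd : ∀ P Q, g (P + Q) ≤ max (g P) (g Q)) :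
    ∃ ω : AbsoluteValue (LK K u) ℝ, IsNonarchimedean ω ∧ ∀ P, ω (aeval (uL K u) P) = g P := by
  classical
  have h1 : g 1 = 1 := by
    have h := hmul 1 1
    rw [mul_one] at h
    have hne : g 1 ≠ 0 := fun h0 => one_ne_zero ((hz 1).mp h0)
    exact mul_left_cancel₀ hne (by rw [← h, mul_one])
  let G : Valuation (MvPolynomial ι K) NNReal :=
    { toFun := fun P => ⟨g P, hnn P⟩
      map_zero' := by ext; exact (hz 0).mpr rfl
      map_one' := by ext; exact h1
      map_mul' := fun P Q => by ext; exact hmul P Q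
      map_add_le_max' := fun P Q => by
        rcases le_max_iff.mp (hadd P Q) with h | h
        · exact le_max_of_le_left h
        · exact le_max_of_le_right h }
  have hG : ∀ P, ((G P : NNReal) : ℝ) = g P := fun P => rfl
  have hS : nonZeroDivisors (MvPolynomial ι K) ≤ G.supp.primeCompl := by
    intro P hP h
    have h0 : G P = 0 := h
    have h2 : g P = 0 := by rw [← hG, h0]; rfl
    exact nonZeroDivisors.ne_zero hP ((hz P).mp h2)
  let G' := G.extendToLocalization hS (FractionRing (MvPolynomial ι K))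
  let e := hu.aevalEquivField
  have he : ∀ P : MvPolynomial ι K, e (algebraMap _ _ P) = aeval (uL K u) P := by
    intro P
    apply Subtype.ext
    rw [show ((e (algebraMap _ _ P) : LK K u) : ℂ) = aeval u P from hu.aevalEquivField_algebraMap_apply_coe P]
    have := (MvPolynomial.aeval_algebraMap_apply (R := K) (A := LK K u) (B := ℂ) (uL K u) P)
    exact this
  let ω : AbsoluteValue (LK K u) ℝ :=
    { toFun := fun x => ((G' (e.symm x) : NNReal) : ℝ)
      map_mul' := fun x y => by rw [map_mul, map_mul, NNReal.coe_mul]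
      nonneg' := fun x => NNReal.coe_nonneg _
      eq_zero' := fun x => by
        rw [NNReal.coe_eq_zero, map_eq_zero, EmbeddingLike.map_eq_zero_iff]
      add_le' := fun x y => by
        rw [map_add]
        have h := G'.map_add (e.symm x) (e.symm y)
        have h2 : G' (e.symm x + e.symm y) ≤ G' (e.symm x) + G' (e.symm y) :=
          h.trans (max_le (le_add_of_nonneg_right bot_le) (le_add_of_nonneg_left bot_le))
        exact_mod_cast h2 }
  refine ⟨ω, fun x y => ?_, fun P => ?_⟩
  · change ((G' (e.symm (x + y)) : NNReal) : ℝ) ≤ max ((G' (e.symm x) : NNReal) : ℝ) ((G' (e.symm y) : NNReal) : ℝ)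
    rw [map_add]
    have h := G'.map_add (e.symm x) (e.symm y)
    exact_mod_cast h
  · change ((G' (e.symm (aeval (uL K u) P)) : NNReal) : ℝ) = g P
    rw [← he, AlgEquiv.symm_apply_apply, ← hG]
    congr 1
    exact G.extendToLocalization_apply_map_apply hS _ P

section coefficients

variable {K : Type} [Field K] {k N : ℕ}

/-- the part of the exponent in the block `0` -/
def e0 (s : Fin (k + 1) × Fin (N + 1) →₀ ℕ) : Fin (N + 1) →₀ ℕ :=
  Finsupp.equivFunOnFinite.symm fun j => s (0, j)

/-- the part of the exponent in the other blocks -/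
def e1 (s : Fin (k + 1) × Fin (N + 1) →₀ ℕ) : Fin k × Fin (N + 1) →₀ ℕ :=
  Finsupp.equivFunOnFinite.symm fun q => s (q.1.succ, q.2)

theorem e_inj {s s' : Fin (k + 1) × Fin (N + 1) →₀ ℕ} (h0 : e0 s' = e0 s) (h1 : e1 s' = e1 s) : s' = s := by
  ext ⟨i, j⟩
  refine Fin.cases ?_ (fun i => ?_) i
  · have := DFunLike.congr_fun h0 j
    simpa [e0] using this
  · have := DFunLike.congr_fun h1 (i, j)
    simpa [e1] using this

theorem e_surj (α : Fin (N + 1) →₀ ℕ) (β : Fin k × Fin (N + 1) →₀ ℕ) :
    ∃ s : Fin (k + 1) × Fin (N + 1) →₀ ℕ, e0 s = α ∧ e1 s = β := by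
  refine ⟨Finsupp.equivFunOnFinite.symm fun q => Fin.cases (motive := fun _ => ℕ) (α q.2) (fun i => β (i, q.2)) q.1,
    ?_, ?_⟩
  · ext j
    simp [e0]
  · ext ⟨i, j⟩
    simp [e1]

theorem sub_monomial (s : Fin (k + 1) × Fin (N + 1) →₀ ℕ) (c : K) :
    sub K (X : Fin k × Fin (N + 1) → MvPolynomial (Fin k × Fin (N + 1)) K) (monomial s c) =
      monomial (e0 s) (monomial (e1 s) c) := by
  rw [sub, aeval_monomial, Finsupp.prod_fintype _ _ (fun i => pow_zero _), Fintype.prod_prod_type,
    Fin.prod_univ_succ, monomial_eq (s := e0 s), Finsupp.prod_fintype _ _ (fun i => pow_zero _),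
    monomial_eq (s := e1 s), Finsupp.prod_fintype _ _ (fun i => pow_zero _), Fintype.prod_prod_type]
  simp only [Fin.cases_zero, Fin.cases_succ, e0, e1, Finsupp.equivFunOnFinite_symm_apply_apply, map_mul,
    map_prod, map_pow]
  rw [show (algebraMap K (MvPolynomial (Fin (N + 1)) (MvPolynomial (Fin k × Fin (N + 1)) K))) c = C (C c) from rfl]
  ring

theorem coeff_sub (P : MvPolynomial (Fin (k + 1) × Fin (N + 1)) K) (s : Fin (k + 1) × Fin (N + 1) →₀ ℕ) :
    coeff (e1 s) (coeff (e0 s)
      (sub K (X : Fin k × Fin (N + 1) → MvPolynomial (Fin k × Fin (N + 1)) K) P)) = coeff s P := by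
  classical
  induction P using MvPolynomial.induction_on' with
  | monomial a b =>
    rw [sub_monomial, coeff_monomial, coeff_monomial]
    by_cases h : a = s
    · subst h
      simp
    · rw [if_neg h]
      by_cases h0 : e0 a = e0 s
      · rw [if_pos h0, coeff_monomial, if_neg]
        exact fun h1 => h (e_inj h0 h1)
      · rw [if_neg h0, coeff_zero]
  | add p q hp hq => rw [map_add, coeff_add, coeff_add, coeff_add, hp, hq]

theorem sub_eq_map [Algebra K ℂ] (u : Fin k × Fin (N + 1) → ℂ) (P : MvPolynomial (Fin (k + 1) × Fin (N + 1)) K) :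
    sub K (uL K u) P = map ((aeval (uL K u) : MvPolynomial (Fin k × Fin (N + 1)) K →ₐ[K] LK K u) :
      MvPolynomial (Fin k × Fin (N + 1)) K →+* LK K u)
      (sub K (X : Fin k × Fin (N + 1) → MvPolynomial (Fin k × Fin (N + 1)) K) P) := by
  induction P using MvPolynomial.induction_on with
  | C a =>
    rw [show (C a : MvPolynomial (Fin (k + 1) × Fin (N + 1)) K) = algebraMap K _ a from rfl, AlgHom.commutes,
      AlgHom.commutes]
    rw [show (algebraMap K (MvPolynomial (Fin (N + 1)) (MvPolynomial (Fin k × Fin (N + 1)) K))) a =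
      C (C a) from rfl, map_C]
    simp
  | add p q hp hq => rw [map_add, map_add, map_add, hp, hq]
  | mul_X p q hp =>
    rw [map_mul, map_mul, map_mul, hp]
    congr 1
    rcases q with ⟨i, j⟩
    refine Fin.cases ?_ (fun i => ?_) i
    · simp [sub]
    · simp [sub]

end coefficients

/-- PACKET CGA. -/
theorem cga (hG : S_GNM) : S_CGA := by
  intro K _ _ v k N u hv hu
  obtain ⟨ω, hω, hω2⟩ := exists_ext u hu (fun P => gn v P) (fun P => gn_nonneg v P)
    (fun P => ⟨fun h => eq_zero_of_gn_eq_zero v h, fun h => by rw [h]; exact gn_zero v⟩)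
    (hG.1 K (Fin k × Fin (N + 1)) v hv).1 (gn_add_le v hv)
  refine ⟨ω, hω, fun c => ?_, fun P => ?_⟩
  · have h := hω2 (C c)
    rw [MvPolynomial.aeval_C] at h
    rw [h]
    exact (hG.2.1 K (Fin k × Fin (N + 1)) v).2.1 c
  · have key : ∀ α, ω (coeff α (sub K (uL K u) P)) =
        gn v (coeff α (sub K (X : Fin k × Fin (N + 1) → MvPolynomial (Fin k × Fin (N + 1)) K) P)) := by
      intro α
      rw [sub_eq_map, coeff_map]
      exact hω2 _
    refine le_antisymm (gn_le ω _ (gn_nonneg v P) fun α => ?_) (gn_le v _ (gn_nonneg ω _) fun s => ?_)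
    · rw [key]
      refine gn_le v _ (gn_nonneg v P) fun β => ?_
      obtain ⟨s, rfl, rfl⟩ := e_surj α β
      rw [coeff_sub]
      exact coeff_le_gn v P s
    · refine le_trans ?_ (coeff_le_gn ω _ (e0 s))
      rw [key, ← coeff_sub]
      exact coeff_le_gn v _ _

end Pool.Agent.Helper9.HD
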